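import Pool.Agent.Helper58.Qip.Stmts

set_option autoImplicit false

open Finset

namespace Pool.Agent.H29.Qip

open Pool.Agent.Helper58.Qip

lemma geom_bound (s : ℝ) (hs0 : 0 ≤ s) (hs1 : s < 1) (n : ℕ) :
    ∑ k ∈ range n, s ^ k ≤ 1 / (1 - s) := by
  have h1 : 0 < 1 - s := by linarith
  rw [geom_sum_eq hs1.ne]
  rw [← neg_div_neg_eq, neg_sub, neg_sub]
  apply div_le_div_of_nonneg_right _ h1.le
  have := pow_nonneg hs0 n
  linarith

lemma int_bound (s : ℝ) (hs0 : 0 ≤ s) (hs1 : s < 1) (N : ℕ) :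
    ∑ k ∈ Icc (-(N : ℤ)) N, s ^ k.natAbs ≤ 2 / (1 - s) := by
  classical
  have hsub : Icc (-(N : ℤ)) N ⊆
      (range (N + 1)).image (fun n : ℕ => (n : ℤ)) ∪ (range (N + 1)).image (fun n : ℕ => -(n : ℤ)) := by
    intro k hk
    rw [mem_Icc] at hk
    rw [mem_union, mem_image, mem_image]
    rcases le_total 0 k with h | h
    · left; exact ⟨k.natAbs, by rw [mem_range]; omega, by omega⟩
    · right; exact ⟨k.natAbs, by rw [mem_range]; omega, by omega⟩
  calc ∑ k ∈ Icc (-(N : ℤ)) N, s ^ k.natAbs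
      ≤ ∑ k ∈ (range (N + 1)).image (fun n : ℕ => (n : ℤ)) ∪
          (range (N + 1)).image (fun n : ℕ => -(n : ℤ)), s ^ k.natAbs :=
        sum_le_sum_of_subset_of_nonneg hsub (fun k _ _ => pow_nonneg hs0 _)
    _ ≤ ∑ k ∈ (range (N + 1)).image (fun n : ℕ => (n : ℤ)), s ^ k.natAbs +
          ∑ k ∈ (range (N + 1)).image (fun n : ℕ => -(n : ℤ)), s ^ k.natAbs := by
        rw [← sum_union_inter]
        have : 0 ≤ ∑ k ∈ (range (N + 1)).image (fun n : ℕ => (n : ℤ)) ∩
          (range (N + 1)).image (fun n : ℕ => -(n : ℤ)), s ^ k.natAbs :=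
          sum_nonneg (fun k _ => pow_nonneg hs0 _)
        linarith
    _ = ∑ k ∈ range (N + 1), s ^ k + ∑ k ∈ range (N + 1), s ^ k := by
        rw [sum_image, sum_image]
        · simp
        · intro a _ b _ h; simpa using h
        · intro a _ b _ h; simpa using h
    _ ≤ 2 / (1 - s) := by
        have := geom_bound s hs0 hs1 (N + 1)
        have h2 : 2 / (1 - s) = 1 / (1 - s) + 1 / (1 - s) := by ring
        linarith

lemma exp_bound (a : ℝ) (ha : 1 ≤ a) : 2 / (1 - Real.exp (-(1 / a))) ≤ 4 * a := by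
  have ha0 : 0 < a := by linarith
  have hx : 0 < 1 / a := by positivity
  have h1 : 1 / a + 1 ≤ Real.exp (1 / a) := Real.add_one_le_exp _
  have h2 : Real.exp (-(1 / a)) ≤ 1 / (1 / a + 1) := by
    rw [Real.exp_neg, ← one_div]
    exact one_div_le_one_div_of_le (by positivity) h1
  have h3 : 1 / (1 / a + 1) = a / (1 + a) := by field_simp
  have h4 : 1 / (2 * a) ≤ 1 - Real.exp (-(1 / a)) := by
    rw [h3] at h2
    have : 1 - a / (1 + a) = 1 / (1 + a) := by field_simp; ring
    have h5 : 1 / (2 * a) ≤ 1 / (1 + a) := one_div_le_one_div_of_le (by positivity) (by linarith)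
    linarith
  have h6 : 0 < 1 / (2 * a) := by positivity
  rw [div_le_iff₀ (by linarith)]
  have : 4 * a * (1 / (2 * a)) = 2 := by field_simp; ring
  nlinarith

lemma site_bound {d : ℕ} {V : Type} (ι : V → Site d) (hι : Function.Injective ι) (s : Finset V)
    (a : ℝ) (ha : 1 ≤ a) :
    ∑ v ∈ s, Real.exp (-((∑ i, |(ι v i : ℝ)|) / a)) ≤ (4 * a) ^ d := by
  classical
  have ha0 : 0 < a := by linarith
  set t := Real.exp (-(1 / a)) with ht
  have ht0 : 0 ≤ t := (Real.exp_pos _).le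
  have ht1 : t < 1 := by
    rw [ht, Real.exp_lt_one_iff]
    have : 0 < 1 / a := by positivity
    linarith
  obtain ⟨N, hN⟩ : ∃ N : ℕ, ∀ v ∈ s, ∀ i, (ι v i).natAbs ≤ N := by
    refine ⟨s.sup fun v => univ.sup fun i => (ι v i).natAbs, fun v hv i => ?_⟩
    exact le_trans (le_sup (f := fun i => (ι v i).natAbs) (mem_univ i))
      (le_sup (f := fun v => univ.sup fun i => (ι v i).natAbs) hv)
  have hterm : ∀ x : Site d, Real.exp (-((∑ i, |(x i : ℝ)|) / a)) = ∏ i, t ^ (x i).natAbs := by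
    intro x
    rw [sum_div, ← sum_neg_distrib, Real.exp_sum]
    apply prod_congr rfl
    intro i _
    rw [ht, ← Real.exp_nat_mul]
    congr 1
    have : ((x i).natAbs : ℝ) = |(x i : ℝ)| := by
      rw [Nat.cast_natAbs, Int.cast_abs]
    rw [this]; ring
  calc ∑ v ∈ s, Real.exp (-((∑ i, |(ι v i : ℝ)|) / a))
      = ∑ v ∈ s, ∏ i, t ^ (ι v i).natAbs := sum_congr rfl fun v _ => hterm _
    _ = ∑ x ∈ s.image ι, ∏ i, t ^ (x i).natAbs := by
        rw [sum_image (fun x _ y _ h => hι h)]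
    _ ≤ ∑ x ∈ Fintype.piFinset (fun _ : Fin d => Icc (-(N : ℤ)) N), ∏ i, t ^ (x i).natAbs := by
        apply sum_le_sum_of_subset_of_nonneg
        · intro x hx
          rw [mem_image] at hx
          obtain ⟨v, hv, rfl⟩ := hx
          rw [Fintype.mem_piFinset]
          intro i
          have := hN v hv i
          rw [mem_Icc]; omega
        · intro x _ _
          exact prod_nonneg fun i _ => pow_nonneg ht0 _
    _ = ∏ i : Fin d, ∑ k ∈ Icc (-(N : ℤ)) N, t ^ k.natAbs := by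
        rw [prod_univ_sum]
    _ ≤ (4 * a) ^ d := by
        rw [prod_const, card_univ, Fintype.card_fin]
        apply pow_le_pow_left₀ (sum_nonneg fun k _ => pow_nonneg ht0 _)
        exact (int_bound t ht0 ht1 N).trans (exp_bound a ha)

theorem stmtU : StmtU := by
  classical
  intro d hd
  refine ⟨1 + d * Real.log 4, fun V ι hι q hq0 hfin hsum => ?_⟩
  set s := hfin.toFinset with hs
  have hmem : ∀ v, v ∉ s → q v = 0 := by
    intro v hv
    rw [hs, Set.Finite.mem_toFinset, Function.mem_support, not_not] at hv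
    exact hv
  have e1 : LGraph.ent q = ∑ v ∈ s, Real.negMulLog (q v) := by
    rw [LGraph.ent, tsum_eq_sum]
    intro v hv
    rw [hmem v hv, Real.negMulLog_zero]
  have e2 : ∑ v ∈ s, q v = 1 := by
    rw [← hsum, tsum_eq_sum]
    intro v hv; exact hmem v hv
  have e3 : ∑' v, q v * ∑ i, |(ι v i : ℝ)| = ∑ v ∈ s, q v * ∑ i, |(ι v i : ℝ)| := by
    rw [tsum_eq_sum]
    intro v hv; rw [hmem v hv, zero_mul]
  rw [e1, e3]
  set b := ∑ v ∈ s, q v * ∑ i, |(ι v i : ℝ)| with hb
  have hb0 : 0 ≤ b := sum_nonneg fun v _ => mul_nonneg (hq0 v) (sum_nonneg fun i _ => abs_nonneg _)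
  set a := 1 + b with ha
  have ha1 : 1 ≤ a := by linarith
  have ha0 : 0 < a := by linarith
  have hZ : 0 < (4 * a) ^ d := by positivity
  have hr : ∀ v, 0 < Real.exp (-((∑ i, |(ι v i : ℝ)|) / a)) / (4 * a) ^ d := fun v => by positivity
  have key : ∀ v ∈ s, Real.negMulLog (q v) ≤ q v * ((∑ i, |(ι v i : ℝ)|) / a + Real.log ((4 * a) ^ d)) +
      (Real.exp (-((∑ i, |(ι v i : ℝ)|) / a)) / (4 * a) ^ d - q v) := by
    intro v hv
    have hqv : 0 < q v := by
      rw [hs, Set.Finite.mem_toFinset, Function.mem_support] at hv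
      exact lt_of_le_of_ne (hq0 v) (Ne.symm hv)
    have h1 := Real.log_le_sub_one_of_pos (div_pos (hr v) hqv)
    rw [Real.log_div (hr v).ne' hqv.ne', Real.log_div (Real.exp_pos _).ne' hZ.ne', Real.log_exp] at h1
    have h2 := mul_le_mul_of_nonneg_left h1 hqv.le
    rw [mul_sub, mul_sub (q v) _ (1 : ℝ), mul_div_cancel₀ _ hqv.ne'] at h2
    rw [Real.negMulLog]
    nlinarith
  calc ∑ v ∈ s, Real.negMulLog (q v)
      ≤ ∑ v ∈ s, (q v * ((∑ i, |(ι v i : ℝ)|) / a + Real.log ((4 * a) ^ d)) +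
      (Real.exp (-((∑ i, |(ι v i : ℝ)|) / a)) / (4 * a) ^ d - q v)) := sum_le_sum key
    _ = b / a + Real.log ((4 * a) ^ d) +
        ((∑ v ∈ s, Real.exp (-((∑ i, |(ι v i : ℝ)|) / a))) / (4 * a) ^ d - 1) := by
        rw [sum_add_distrib, sum_sub_distrib, e2, ← sum_div]
        congr 1
        simp_rw [mul_add]
        rw [sum_add_distrib, ← sum_mul, e2, one_mul, hb, sum_div]
        congr 1
        apply sum_congr rfl
        intro v _
        ring
    _ ≤ 1 + Real.log ((4 * a) ^ d) + (1 - 1) := by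
        have h1 : b / a ≤ 1 := by rw [div_le_one ha0]; linarith
        have h2 : (∑ v ∈ s, Real.exp (-((∑ i, |(ι v i : ℝ)|) / a))) / (4 * a) ^ d ≤ 1 := by
          rw [div_le_one hZ]; exact site_bound ι hι s a ha1
        linarith
    _ = 1 + d * Real.log 4 + d * Real.log a := by
        rw [Real.log_pow, Real.log_mul (by norm_num) ha0.ne']
        ring

end Pool.Agent.H29.Qip
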